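import Pool.Agent.N62.FQ.Num
import Pool.Agent.Z705.Fin
import Pool.Agent.Y687.MQ.Fin
import Pool.Agent.Y703.CQ.Cor

/-!
The rank form of the Birch and Swinnerton-Dyer conjecture for the quadratic twists of `X_0(14)`, a curve
without complex multiplication, by the numbers with a FIXED number of prime factors taken from
ARBITRARY sets of primes of positive lower density: exact rational proportions.

Let `S_1, …, S_m` be disjoint sets of primes, each of positive lower density in the primes and each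
contained in one of the following classes: `1`: `p ≡ 1 mod 8` split in `ℚ(√-7)`; `3`, `5`: `p ≡ 3 mod 8`,
`p ≡ 5 mod 8` inert in `ℚ(√-7)`, `p ≠ 3`. Consider the squarefree `N` with all prime factors in the union
of the `S_c`, exactly `n_c` of them in `S_c`, and the twist by `D = ± N ≡ 1 mod 4`; let `ν_r` be the number of
the prime factors in the class `r` (so `ν_r` is the sum of the `n_c` for the sets `S_c` in the class `r`).
Assume that `ν_5` is even and that there is an inert prime factor. Then: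
* the number of these `N ≤ X` is between two positive constants times `X (log log X)^{k-1} / log X`,
  `k` the number of the prime factors;
* if the twist has finitely many rational points and `Ш[2] = 0`, then it satisfies the rank form, both
  sides being zero;
* the proportion of the `N` with this property tends to `∏_{i < ⌈ν_1 / 2⌉} (1 - 2^{-(2i+1)})`: it is
  positive, rational, and depends only on the number `ν_1` of the split prime factors, and not on the
  sets `S_c`.

The criterion for a single `D` is that of the library (`ExactProportion`: helpers 700, 17, 687 and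
their teams). The engine for a fixed number of primes is `Pool/Agent/V11291/FK` (used before only for
cubic twists). New here (`Pool/Agent/N62/FQ`): the law of the symmetric matrices of the symbols between
the prime factors for every number of primes of each class, with no hypothesis on the sets of primes
but their lower density (the density theorem for all `D` needs only the limit for many primes).
-/

set_option autoImplicit false

open Finset Filter Topology

namespace Pool.Agent.Results.MP_696deb_nt.FixedNumberTwists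

/-- the curve `y² = x³ + a x + b` over `ℚ` -/
def E (a b : ℤ) : WeierstrassCurve ℚ :=
  { a₁ := 0, a₂ := 0, a₃ := 0, a₄ := (a : ℚ), a₆ := (b : ℚ) }

/-- `y² = x³ + a x + b` has finitely many rational points and its Tate-Shafarevich group over `ℚ`
has no element of order two -/
def RankZeroShaTwo (a b : ℤ) : Prop :=
  Finite (E a b).toAffine.Point ∧ ∀ x : Pool.Agent.TH841.SH.D.Sha (E a b), 2 • x = 0 → x = 0

/-- the conclusion of the frozen statement for `y² = x³ + a x + b`, together with the fact that the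
order of vanishing and the rank are both `0` -/
def BSDRankZero (a b : ℤ) : Prop :=
  4 * a ^ 3 + 27 * b ^ 2 ≠ 0 ∧
    ∃ F : ℂ → ℂ, Differentiable ℂ F ∧
      (∀ s : ℂ, (3 : ℝ) / 2 < s.re →
        HasProd
          (fun p : ℕ => open Classical in
            if p.Prime ∧ ¬ ((p : ℤ) ∣ 2 * (-4 * a ^ 3 - 27 * b ^ 2)) then
              (1 - ((p : ℂ) - (Nat.card {q : ZMod p × ZMod p //
                  q.2 ^ 2 = q.1 ^ 3 + (a : ZMod p) * q.1 + (b : ZMod p)} : ℂ))
                  * (p : ℂ) ^ (-s) + (p : ℂ) ^ (1 - 2 * s))⁻¹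
            else 1)
          (F s)) ∧
      analyticOrderAt F 1 =
        ((Module.finrank ℤ
          (WeierstrassCurve.Affine.Point
            (WeierstrassCurve.toAffine
              ({ a₁ := 0, a₂ := 0, a₃ := 0, a₄ := (a : ℚ), a₆ := (b : ℚ) } :
                WeierstrassCurve ℚ))) : ℕ) : ℕ∞) ∧
      Module.finrank ℤ
        (WeierstrassCurve.Affine.Point
          (WeierstrassCurve.toAffine
            ({ a₁ := 0, a₂ := 0, a₃ := 0, a₄ := (a : ℚ), a₆ := (b : ℚ) } :
              WeierstrassCurve ℚ))) = 0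

/-- the coefficient `a` of the equation `y² = x³ + a x + b` of the twist by `D` of `X_0(14)` -/
def A (D : ℤ) : ℤ := 5805 * D ^ 2

/-- the coefficient `b` of the equation `y² = x³ + a x + b` of the twist by `D` of `X_0(14)` -/
def B (D : ℤ) : ℤ := -285714 * D ^ 3

/-- the twist by `D` has finitely many rational points and no element of order two in `Ш`, and it
satisfies the rank form with both sides `0` -/
def Good (D : ℤ) : Prop := RankZeroShaTwo (A D) (B D) ∧ BSDRankZero (A D) (B D)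

/-- `p` splits in `ℚ(√-7)` (for a prime `p ≠ 2, 7`) -/
def Splits (p : ℕ) : Prop := p % 7 = 1 ∨ p % 7 = 2 ∨ p % 7 = 4

/-- `p` is inert in `ℚ(√-7)` (for a prime `p ≠ 2, 7`) -/
def Inert (p : ℕ) : Prop := p % 7 = 3 ∨ p % 7 = 5 ∨ p % 7 = 6

/-- the primes of the kind `r`: `r = 1`: `1 mod 8`, split in `ℚ(√-7)`; `r = 3`, `r = 5`: `r mod 8`, inert in
`ℚ(√-7)`, different from `3` -/
def Kind (r p : ℕ) : Prop :=
  p.Prime ∧ p ≠ 3 ∧ p % 8 = r ∧ (r = 1 ∧ Splits p ∨ (r = 3 ∨ r = 5) ∧ Inert p)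

/-- positive lower density in the set of the primes: at least `δ Y / log Y` elements up to `Y`, for a
`δ > 0` and all large `Y` -/
def Dense (S : Set ℕ) : Prop := ∃ (δ : ℝ) (Y₀ : ℕ), 0 < δ ∧ ∀ Y : ℕ, Y₀ ≤ Y →
  δ * (Y / Real.log Y) ≤ (Nat.card {p : ℕ // p ≤ Y ∧ p ∈ S} : ℝ)

/-- the limit -/
noncomputable def limit (a : ℕ) : ℝ := ∏ i ∈ range ((a + 1) / 2), (1 - (1 / 2 : ℝ) ^ (2 * i + 1))

/-- `n` or `-n`, congruent to `1` modulo `4`, for odd `n` -/
def disc (n : ℕ) : ℤ := if n % 4 = 1 then (n : ℤ) else -(n : ℤ)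

/-- the size of the family is between two constants times `X (log log X) ^ (k - 1) / log X`, and the
proportion of the good members has the limit `α` -/
def Law (total good : ℕ → ℕ) (k : ℕ) (α : ℝ) : Prop :=
  (∃ (c C : ℝ) (X₀ : ℕ), 0 < c ∧ 0 < C ∧ ∀ X : ℕ, X₀ ≤ X →
    c * (X * Real.log (Real.log X) ^ (k - 1) / Real.log X) ≤ (total X : ℝ) ∧
    (total X : ℝ) ≤ C * (X * Real.log (Real.log X) ^ (k - 1) / Real.log X)) ∧
  Tendsto (fun X : ℕ => (good X : ℝ) / (total X : ℝ)) atTop (𝓝 α)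

/-- the sum of the `n c` over the `c` with `K c = r` -/
def total {m : ℕ} (K n : Fin m → ℕ) (r : ℕ) : ℕ := ∑ c ∈ univ.filter (fun c => K c = r), n c

/-- `N` is squarefree, all its prime factors are in the union of the sets `S c`, and exactly `n c` of them
are in `S c` -/
def Family {m : ℕ} (S : Fin m → Set ℕ) (n : Fin m → ℕ) (N : ℕ) : Prop :=
  Squarefree N ∧ (∀ p : ℕ, p.Prime → p ∣ N → ∃ c, p ∈ S c) ∧
    ∀ c, Nat.card {p : ℕ // p.Prime ∧ p ∣ N ∧ p ∈ S c} = n c

/-- the number of the `N` with `1 ≤ N ≤ X` and `Q N` -/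
noncomputable def count (Q : ℕ → Prop) (X : ℕ) : ℕ := Nat.card {N : ℕ // 1 ≤ N ∧ N ≤ X ∧ Q N}

section proof

open scoped Classical
open Pool.Agent.V11291.FK (Dn Tup mem_Tup)
open Pool.Agent.N62.FQ (Kd J1 al pj Sm Ij nt dn_iff sp_eq Qg Ig card_of_iff)

/-! ### The criteria -/

theorem rank14 {D : ℤ} (h : Pool.Agent.Y687.MQ.AdmD D) :
    RankZeroShaTwo (A D) (B D) ↔ (Pool.Agent.Y687.MQ.matD D).det ≠ 0 := by
  obtain ⟨hP, hT, -, he⟩ := Pool.Agent.Y687.MQ.of_admD h
  have h1 := Pool.Agent.Z704.equivS Pool.Agent.Z702.f_COC Pool.Agent.Z702.f_LOT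
    Pool.Agent.Z702.f_COB Pool.Agent.Z702.f_TOR Pool.Agent.Z702.f_LQ Pool.Agent.Z702.f_LG
    Pool.Agent.Z702.f_LP Pool.Agent.Z702.f_LIN Pool.Agent.Z702.f_TRN Pool.Agent.Z705.f_SELA
    Pool.Agent.Z705.f_SELB (Pool.Agent.Z705.cnd hP hT)
  have he' : ((Pool.Agent.Z700.pr (Pool.Agent.Y687.MQ.SP D) : ℕ) : ℤ) *
    Pool.Agent.Y687.DD (Pool.Agent.Y687.MQ.IP D) = D := he
  rw [he'] at h1
  have hm : Pool.Agent.Y687.DD (Pool.Agent.Y687.MQ.IP D) =
      Pool.Agent.Z700.pr (Pool.Agent.Y687.MQ.IP D) ∨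
      Pool.Agent.Y687.DD (Pool.Agent.Y687.MQ.IP D) =
        -(Pool.Agent.Z700.pr (Pool.Agent.Y687.MQ.IP D) : ℤ) := by
    refine Int.natAbs_eq_natAbs_iff.1 ?_
    rw [Pool.Agent.Y687.DD_natAbs, Int.natAbs_natCast]
    rfl
  rw [Pool.Agent.Y687.MQ.matD_eq, Pool.Agent.Y687.MQ.matT_iff hP hT,
    ← Pool.Agent.Y687.MQ.det_ind hP hT hm, h1]
  unfold RankZeroShaTwo
  refine and_congr Iff.rfl (forall_congr' fun x => ?_)
  rw [two_nsmul]
  rfl

theorem bsd14 {D : ℤ} (h : Pool.Agent.Y687.MQ.AdmD D)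
    (hR : RankZeroShaTwo (A D) (B D)) :
    BSDRankZero (A D) (B D) := by
  obtain ⟨⟨f, hf, hfp, hf1⟩, hfin⟩ := Pool.Agent.Y687.MQ.WB_D h ((rank14 h).1 hR)
  obtain ⟨F, h1, h2, h3, h4⟩ := Pool.Agent.Y687.rankBSD hf hfp hf1 hfin
  refine ⟨?_, F, h1, h2, ?_, h4⟩
  · have e : 4 * (A D) ^ 3 + 27 * (B D) ^ 2 =
        (4 * 5805 ^ 3 + 27 * 285714 ^ 2) * D ^ 6 := by
      show 4 * (5805 * D ^ 2) ^ 3 + 27 * (-285714 * D ^ 3) ^ 2 = _
      ring
    rw [e]
    exact mul_ne_zero (by norm_num) (pow_ne_zero 6 h.1.ne_zero)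
  · have h4' : Module.finrank ℤ
        (WeierstrassCurve.Affine.Point
          (WeierstrassCurve.toAffine
            ({ a₁ := 0, a₂ := 0, a₃ := 0, a₄ := ((A D : ℤ) : ℚ),
               a₆ := ((B D : ℤ) : ℚ) } : WeierstrassCurve ℚ))) = 0 := h4
    rw [h3, h4']
    rfl

theorem good14_iff {D : ℤ} (h : Pool.Agent.Y687.MQ.AdmD D) :
    Good D ↔ Pool.Agent.Y703.CQ.Gd Pool.Agent.Y703.CQ.ff D.natAbs.primeFactors := by
  rw [← Pool.Agent.Y703.CQ.gd_iff, ← rank14 h]
  exact ⟨fun h' => h'.1, fun h' => ⟨h', bsd14 h h'⟩⟩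

/-! ### The kinds of primes -/

theorem kind14_iff (r p : ℕ) : Kind r p ↔ Kd r p := by
  unfold Kind Splits Inert Pool.Agent.N62.FQ.Kd Pool.Agent.Y703.CQ.Sp Pool.Agent.Y703.CQ.In
  constructor
  · rintro ⟨h1, h2, h3, h4⟩
    rcases h4 with ⟨rfl, h5⟩ | ⟨h5, h6⟩
    · exact ⟨Or.inl ⟨h1, h3, h5⟩, h3⟩
    · refine ⟨Or.inr ⟨h1, h2, ?_, h6⟩, h3⟩
      rw [Finset.mem_insert, Finset.mem_singleton]
      omega
  · rintro ⟨h1 | h1, h2⟩
    · refine ⟨h1.1, ?_, h2, Or.inl ⟨by rw [← h2]; exact h1.2.1, h1.2.2⟩⟩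
      rintro rfl
      have := h1.2.1
      omega
    · refine ⟨h1.1, h1.2.1, h2, Or.inr ⟨?_, h1.2.2.2⟩⟩
      have := h1.2.2.1
      rw [Finset.mem_insert, Finset.mem_singleton] at this
      omega

/-! ### The discriminants -/

/-- a discriminant with the right prime factors -/
theorem adm_of_cl {D : ℤ} (hsq : Squarefree D) (h4 : D % 4 = 1)
    (hcl : Pool.Agent.Y703.CQ.Cl {3, 5} {0, 1} D.natAbs.primeFactors) :
    Pool.Agent.Y687.MQ.AdmD D := by
  obtain ⟨D', h1, h2⟩ := Pool.Agent.Y703.CQ.cl_adm (Int.squarefree_natAbs.2 hsq) hcl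
  have h3 := h1.2.1
  rcases Int.natAbs_eq_natAbs_iff.1 h2 with e | e
  · rw [← e]
    exact h1
  · omega

theorem disc_natAbs (n : ℕ) : (disc n).natAbs = n := by
  unfold disc
  split_ifs
  · exact Int.natAbs_natCast n
  · rw [Int.natAbs_neg, Int.natAbs_natCast]

theorem disc_mod {n : ℕ} (h : n % 2 = 1) : disc n % 4 = 1 := by
  unfold disc
  split_ifs <;> omega

/-! ### The families -/

section fam

variable {m : ℕ} {S : Fin m → Set ℕ} {K n : Fin m → ℕ}

theorem fam_iff (N : ℕ) : Family S n N ↔ Squarefree N ∧ Qg S n N.primeFactors := by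
  unfold Family Pool.Agent.N62.FQ.Qg
  refine and_congr_right fun hsq => and_congr ?_ (forall_congr' fun c => ?_)
  · constructor
    · intro h p hp
      exact h p (Nat.prime_of_mem_primeFactors hp) (Nat.dvd_of_mem_primeFactors hp)
    · intro h p hp hd
      exact h p (Nat.mem_primeFactors.2 ⟨hp, hd, hsq.ne_zero⟩)
  · rw [card_of_iff (N.primeFactors.filter fun p => p ∈ S c)
      (fun p => p.Prime ∧ p ∣ N ∧ p ∈ S c) fun p => by
        rw [Finset.mem_filter, Nat.mem_primeFactors]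
        constructor
        · rintro ⟨⟨h1, h2, -⟩, h3⟩
          exact ⟨h1, h2, h3⟩
        · rintro ⟨h1, h2, h3⟩
          exact ⟨⟨h1, h2, hsq.ne_zero⟩, h3⟩]

/-- the criterion, `X_0(14)` -/
theorem crit14 (hd : ∀ c c', c ≠ c' → Disjoint (S c) (S c')) (hS : ∀ c, ∀ p ∈ S c, Kind (K c) p)
    (h5 : Even (total K n 5)) {N : ℕ} (hN : Family S n N) :
    Pool.Agent.Y687.MQ.AdmD (disc N) ∧ (Good (disc N) ↔
      Pool.Agent.Y703.CQ.Gd Pool.Agent.Y703.CQ.ff N.primeFactors) := by
  obtain ⟨hsq, hQ⟩ := (fam_iff N).1 hN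
  have hK : ∀ p ∈ N.primeFactors, Pool.Agent.Y703.CQ.Sp p ∨ Pool.Agent.Y703.CQ.In {3, 5} p := by
    intro p hp
    obtain ⟨c, hc⟩ := hQ.1 p hp
    exact ((kind14_iff _ _).1 (hS c p hc)).1
  have hodd : N % 2 = 1 := by
    rcases Nat.mod_two_eq_zero_or_one N with h | h
    · exfalso
      have h2 : 2 ∈ N.primeFactors :=
        Nat.mem_primeFactors.2 ⟨Nat.prime_two, Nat.dvd_of_mod_eq_zero h, hsq.ne_zero⟩
      have := Pool.Agent.N62.FQ.mod_of (hK 2 h2)
      omega
    · exact h
  have h5' : (N.primeFactors.filter fun p => p % 8 = 5).card = total K n 5 :=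
    Pool.Agent.N62.FQ.card_qg hd hQ (κ := fun p => p % 8)
      (fun c p hp => ((kind14_iff _ _).1 (hS c p hp)).2) 5
  have hcl : Pool.Agent.Y703.CQ.Cl {3, 5} {0, 1} N.primeFactors := by
    refine ⟨hK, ?_, ?_⟩
    · rw [h5']
      exact Nat.even_iff.1 h5
    · rcases Nat.mod_two_eq_zero_or_one (N.primeFactors.filter fun p => p % 8 = 3).card with h | h
      · rw [h]; decide
      · rw [h]; decide
  have h4 : Pool.Agent.Y687.MQ.AdmD (disc N) := by
    refine adm_of_cl ?_ (disc_mod hodd) (by rw [disc_natAbs]; exact hcl)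
    rw [← Int.squarefree_natAbs, disc_natAbs]
    exact hsq
  refine ⟨h4, ?_⟩
  rw [good14_iff h4, disc_natAbs]

theorem count_eq (Q : ℕ → Prop) [DecidablePred Q] (X : ℕ) :
    count Q X = ((Finset.Icc 1 X).filter Q).card := by
  unfold count
  refine card_of_iff _ _ fun D => ?_
  rw [Finset.mem_filter, Finset.mem_Icc, and_assoc]

/-- the law from the law for the tuples -/
theorem law_of_tuples (hp : ∀ c, ∀ p ∈ S c, p.Prime) (hD : ∀ c, Dense (S c))
    (hd : ∀ c c', c ≠ c' → Disjoint (S c) (S c')) (hn : 1 ≤ ∑ c, n c) (G : Finset ℕ → Prop) (α : ℝ)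
    (hG : ∀ N, Family S n N → (Good (disc N) ↔ G N.primeFactors))
    (hlaw : ∀ [LinearOrder (Ig n)], Tendsto (fun X : ℕ =>
      (((Tup (fun (i : Ig n) p => p ∈ S i.1) X).filter fun p => G (univ.image p)).card : ℝ) /
        ((Tup (fun (i : Ig n) p => p ∈ S i.1) X).card : ℝ)) atTop (𝓝 α)) :
    Law (count (Family S n)) (count fun N => Family S n N ∧ Good (disc N)) (∑ c, n c) α := by
  have h := Pool.Agent.N62.FQ.num_law hp hd (fun c => (dn_iff (S c)).1 (hD c)) n hn G α @hlaw
  have e1 : ∀ X, count (Family S n) X =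
      ((Finset.Icc 1 X).filter fun N => Squarefree N ∧ Qg S n N.primeFactors).card := by
    intro X
    rw [count_eq]
    refine congrArg Finset.card (Finset.ext fun N => ?_)
    rw [Finset.mem_filter, Finset.mem_filter, fam_iff N]
  have e2 : ∀ X, count (fun N => Family S n N ∧ Good (disc N)) X =
      ((Finset.Icc 1 X).filter fun N => (Squarefree N ∧ Qg S n N.primeFactors) ∧
        G N.primeFactors).card := by
    intro X
    rw [count_eq]
    refine congrArg Finset.card (Finset.ext fun N => ?_)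
    rw [Finset.mem_filter, Finset.mem_filter]
    refine and_congr_right fun _ => ?_
    constructor
    · rintro ⟨h1, h2⟩
      exact ⟨(fam_iff N).1 h1, (hG N h1).1 h2⟩
    · rintro ⟨h1, h2⟩
      exact ⟨(fam_iff N).2 h1, (hG N ((fam_iff N).2 h1)).2 h2⟩
  unfold Law
  simp only [e1, e2]
  exact h

theorem total_le (r : ℕ) : total K n r ≤ ∑ c, n c :=
  Finset.sum_le_sum_of_subset (Finset.subset_univ _)

theorem exists_index {r : ℕ} (h : 1 ≤ total K n r) : ∃ i : Ig n, K i.1 = r := by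
  by_contra hc
  push Not at hc
  have : total K n r = 0 := by
    unfold total
    refine Finset.sum_eq_zero fun c hc' => ?_
    rw [Finset.mem_filter] at hc'
    rcases Nat.eq_zero_or_pos (n c) with h0 | h0
    · exact h0
    · exact absurd hc'.2 (hc ⟨c, ⟨0, h0⟩⟩)
  omega

theorem law14 (hD : ∀ c, Dense (S c)) (hd : ∀ c c', c ≠ c' → Disjoint (S c) (S c'))
    (hS : ∀ c, ∀ p ∈ S c, Kind (K c) p) (h5 : Even (total K n 5))
    (h35 : 1 ≤ total K n 3 + total K n 5) :
    Law (count (Family S n)) (count fun N => Family S n N ∧ Good (disc N)) (∑ c, n c)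
      (limit (total K n 1)) := by
  have hK : ∀ c, ∀ p ∈ S c, Kd (K c) p := fun c p hp => (kind14_iff _ _).1 (hS c p hp)
  have hn : 1 ≤ ∑ c, n c := by
    have h1 := total_le (K := K) (n := n) 3
    have h2 := total_le (K := K) (n := n) 5
    omega
  refine law_of_tuples (fun c p hp => (hK c p hp).prime) hD hd hn
    (Pool.Agent.Y703.CQ.Gd Pool.Agent.Y703.CQ.ff) _ (fun N hN => (crit14 hd hS h5 hN).2) ?_
  intro _inst
  have hne : ∃ i : Ig n, K i.1 ≠ 1 := by
    rcases Nat.eq_zero_or_pos (total K n 3) with h | h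
    · obtain ⟨i, hi⟩ := exists_index (K := K) (n := n) (r := 5) (by omega)
      exact ⟨i, by omega⟩
    · obtain ⟨i, hi⟩ := exists_index h
      exact ⟨i, by omega⟩
  have h1 := Pool.Agent.N62.FQ.tup_law (P := fun (i : Ig n) p => p ∈ S i.1)
    (τ := fun i : Ig n => K i.1) (fun i p hp => hK i.1 p hp)
    ⟨by rw [Pool.Agent.N62.FQ.card_kind]; exact h5, hne⟩
    (fun i => (dn_iff (S i.1)).1 (hD i.1)) Pool.Agent.Y703.CQ.ff
  have h2 : (J1 fun i : Ig n => K i.1).card = total K n 1 := Pool.Agent.N62.FQ.card_kind n K 1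
  rw [h2] at h1
  exact h1

end fam

theorem prod_pos_half (m : ℕ) : 0 < ∏ i ∈ range m, (1 - (1 / 2 : ℝ) ^ (2 * i + 1)) := by
  refine Finset.prod_pos fun i _ => ?_
  have : (1 / 2 : ℝ) ^ (2 * i + 1) ≤ (1 / 2) ^ 1 :=
    pow_le_pow_of_le_one (by norm_num) (by norm_num) (by omega)
  linarith

theorem dense_class {m t : ℕ} (hm : 1 ≤ m) (ht : Nat.Coprime t m) :
    Dense {p : ℕ | p.Prime ∧ p % m = t % m} :=
  (dn_iff _).2 (Pool.Agent.N62.FQ.dn_class hm ht)

end proof

/-- **Main theorem.** -/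
theorem result :
    (∀ (m : ℕ) (S : Fin m → Set ℕ) (K n : Fin m → ℕ),
      (∀ c, Dense (S c)) → (∀ c c', c ≠ c' → Disjoint (S c) (S c')) →
      (∀ c, ∀ p ∈ S c, Kind (K c) p) →
      Even (total K n 5) → 1 ≤ total K n 3 + total K n 5 →
      (∀ N, Family S n N → RankZeroShaTwo (A (disc N)) (B (disc N)) →
        BSDRankZero (A (disc N)) (B (disc N))) ∧
      Law (count (Family S n)) (count fun N => Family S n N ∧ Good (disc N)) (∑ c, n c)
        (limit (total K n 1))) ∧
    (∀ a, 0 < limit a) ∧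
    ∀ q t : ℕ, 1 ≤ q → Nat.Coprime t q → Dense {p : ℕ | p.Prime ∧ p % q = t % q} := by
  refine ⟨?_, fun a => prod_pos_half _, fun _ _ hm ht => dense_class hm ht⟩
  intro m S K n hD hd hS h5 h35
  exact ⟨fun N hN hR => bsd14 (crit14 hd hS h5 hN).1 hR, law14 hD hd hS h5 h35⟩

end Pool.Agent.Results.MP_696deb_nt.FixedNumberTwists
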