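import Pool.Agent.N62.FQ.Num
import Pool.Agent.N818.TC.Crit

/-!
The weak Birch and Swinnerton-Dyer conjecture for the quadratic twists of `X_0(49)` by the numbers with a
FIXED number of prime factors taken from ARBITRARY sets of primes of positive lower density: exact
rational proportions.

All the primes `p ≠ 2, 7` are in one of four classes: `0`, `1`: `p ≡ 1 mod 4`, `p ≡ 3 mod 4` inert in
`ℚ(√-7)`; `2`, `3`: `p ≡ 1 mod 4`, `p ≡ 3 mod 4` split. Let `S_1, …, S_m` be disjoint sets of primes, each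
of positive lower density in the primes and each contained in one of the classes. Consider the
squarefree `D ≡ 1 mod 4` with all prime factors in the union of the `S_c`, exactly `n_c` of them in `S_c`;
let `ν_r` be the number of the prime factors in the class `r` (so `ν_r` is the sum of the `n_c` for the sets
`S_c` in the class `r`, and `ν_1 + ν_3` is even), and assume that `ν_0 ≥ 1`. Then:
* the number of these `D ≤ X` is between two positive constants times `X (log log X)^{k-1} / log X`,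
  `k` the number of the prime factors;
* if the twist has finitely many rational points and `Ш[2] = 0`, then its `L`-function does not vanish
  at `s = 1`: both sides of the equivalence of the weak conjecture are false;
* the proportion of the `D` with this property has an exact limit, a rational number which depends
  only on the `ν_r`, and not on the sets `S_c`: it is `∏_{i < (ν_3 - ν_1) / 2} (1 - 2^{-(2i+1)})` times the
  proportion of the matrices over `𝔽₂` with independent columns among the matrices with `ν_2 + ν_3` rows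
  and `ν_2 + ν_1` columns whose block `ν_2 × ν_2` is symmetric; it is positive if and only if `ν_1 ≤ ν_3`.

The criterion for a single `D` is that of the library (`N818/TC`: helper818; `N973/ND`: helper973). The
engine for a fixed number of primes is `Pool/Agent/V11291/FK` (used before only for cubic twists). New
here (`Pool/Agent/N62/FQ`): the exact probability that a random system of symbols is good, for every
number of primes of each class (the density theorem for all `D` needs only its limit for many primes).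
-/

set_option autoImplicit false

open Finset Filter Topology

namespace Pool.Agent.Results.MP_8b7eba_nt.FixedNumberTwistsX49

/-- the curve `y² = x³ + a x + b` over `ℚ` -/
def E (a b : ℤ) : WeierstrassCurve ℚ :=
  { a₁ := 0, a₂ := 0, a₃ := 0, a₄ := (a : ℚ), a₆ := (b : ℚ) }

/-- `y² = x³ + a x + b` has finitely many rational points and its Tate-Shafarevich group over `ℚ`
has no element of order two -/
def RankZeroShaTwo (a b : ℤ) : Prop :=
  Finite (E a b).toAffine.Point ∧ ∀ x : Pool.Agent.TH841.SH.D.Sha (E a b), 2 • x = 0 → x = 0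

/-- the rational points of `y² = x³ + a x + b` -/
def points (a b : ℤ) : Set (ℚ × ℚ) := {q : ℚ × ℚ | q.2 ^ 2 = q.1 ^ 3 + (a : ℚ) * q.1 + (b : ℚ)}

/-- `f` is entire and it is the `L`-function of `y² = x³ + a x + b` (the Euler product over the primes that
do not divide `2 (4 a³ + 27 b²)`) for `Re s > 3/2` -/
def IsL (a b : ℤ) (f : ℂ → ℂ) : Prop :=
  Differentiable ℂ f ∧ ∀ s : ℂ, (3 : ℝ) / 2 < s.re →
    HasProd
      (fun p : {p : ℕ // p.Prime ∧ ¬ ((p : ℤ) ∣ 2 * (4 * a ^ 3 + 27 * b ^ 2))} =>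
        ((1 : ℂ)
          - ((((p.1 : ℤ) - (Nat.card {q : ZMod p.1 × ZMod p.1 //
                q.2 ^ 2 = q.1 ^ 3 + (a : ZMod p.1) * q.1 + (b : ZMod p.1)} : ℤ)) : ℤ) : ℂ)
              * ((p.1 : ℂ) ^ (-s))
          + (p.1 : ℂ) ^ (1 - 2 * s))⁻¹)
      (f s)

/-- the weak conjecture for `y² = x³ + a x + b` (the conclusion of `S17691`) -/
def WeakBSD (a b : ℤ) : Prop := ∀ f : ℂ → ℂ, IsL a b f → (f 1 = 0 ↔ (points a b).Infinite)

/-- `y² = x³ + a x + b` satisfies the weak conjecture, and both sides are false: the `L`-function has an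
entire continuation, it does not vanish at `s = 1`, and there are only finitely many points -/
def WeakBSDRankZero (a b : ℤ) : Prop :=
  4 * a ^ 3 + 27 * b ^ 2 ≠ 0 ∧ WeakBSD a b ∧ (∃ f : ℂ → ℂ, IsL a b f ∧ f 1 ≠ 0) ∧
    (points a b).Finite

/-- the coefficient `a` of the equation `y² = x³ + a x + b` of the twist by `D` of `X_0(49)` -/
def A (D : ℤ) : ℤ := -35 * D ^ 2

/-- the coefficient `b` of the equation `y² = x³ + a x + b` of the twist by `D` of `X_0(49)` -/
def B (D : ℤ) : ℤ := -98 * D ^ 3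

/-- the twist by `D` has finitely many rational points and no element of order two in `Ш`, and it
satisfies the weak conjecture with both sides false -/
def Good (D : ℤ) : Prop := RankZeroShaTwo (A D) (B D) ∧ WeakBSDRankZero (A D) (B D)

/-- `p` splits in `ℚ(√-7)` (for a prime `p ≠ 2, 7`) -/
def Splits (p : ℕ) : Prop := p % 7 = 1 ∨ p % 7 = 2 ∨ p % 7 = 4

/-- `p` is inert in `ℚ(√-7)` (for a prime `p ≠ 2, 7`) -/
def Inert (p : ℕ) : Prop := p % 7 = 3 ∨ p % 7 = 5 ∨ p % 7 = 6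

/-- the primes of the kind `r`, all different from `2` and `7`: `r = 0`: inert, `1 mod 4`; `r = 1`: inert,
`3 mod 4`; `r = 2`: split, `1 mod 4`; `r = 3`: split, `3 mod 4` -/
def Kind (r p : ℕ) : Prop := p.Prime ∧ (r = 0 ∧ Inert p ∧ p % 4 = 1 ∨ r = 1 ∧ Inert p ∧ p % 4 = 3 ∨
  r = 2 ∧ Splits p ∧ p % 4 = 1 ∨ r = 3 ∧ Splits p ∧ p % 4 = 3)

/-- positive lower density in the set of the primes: at least `δ Y / log Y` elements up to `Y`, for a
`δ > 0` and all large `Y` -/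
def Dense (S : Set ℕ) : Prop := ∃ (δ : ℝ) (Y₀ : ℕ), 0 < δ ∧ ∀ Y : ℕ, Y₀ ≤ Y →
  δ * (Y / Real.log Y) ≤ (Nat.card {p : ℕ // p ≤ Y ∧ p ∈ S} : ℝ)

/-- the matrices over the field with two elements with `a + r` rows and `a + s` columns whose
`a × a` block is symmetric -/
def Mat (a r s : ℕ) : Type :=
  {M : Fin a ⊕ Fin r → Fin a ⊕ Fin s → ZMod 2 //
    ∀ i j, M (Sum.inl i) (Sum.inl j) = M (Sum.inl j) (Sum.inl i)}

/-- the columns of the matrix are linearly independent -/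
def Independent {a r s : ℕ} (M : Mat a r s) : Prop :=
  ∀ x : Fin a ⊕ Fin s → ZMod 2, (∀ i, ∑ j, M.1 i j * x j = 0) → ∀ j, x j = 0

/-- the limit: `∏_{i < (r - s) / 2} (1 - 2^{-(2i+1)})` times the proportion of the matrices in
`Mat a r s` with linearly independent columns -/
noncomputable def limit (a r s : ℕ) : ℝ :=
  (∏ i ∈ range ((r - s) / 2), (1 - (1 / 2 : ℝ) ^ (2 * i + 1))) *
    ((Nat.card {M : Mat a r s // Independent M} : ℝ) / Nat.card (Mat a r s))

/-- the size of the family is between two constants times `X (log log X) ^ (k - 1) / log X`, and the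
proportion of the good members has the limit `α` -/
def Law (total good : ℕ → ℕ) (k : ℕ) (α : ℝ) : Prop :=
  (∃ (c C : ℝ) (X₀ : ℕ), 0 < c ∧ 0 < C ∧ ∀ X : ℕ, X₀ ≤ X →
    c * (X * Real.log (Real.log X) ^ (k - 1) / Real.log X) ≤ (total X : ℝ) ∧
    (total X : ℝ) ≤ C * (X * Real.log (Real.log X) ^ (k - 1) / Real.log X)) ∧
  Tendsto (fun X : ℕ => (good X : ℝ) / (total X : ℝ)) atTop (𝓝 α)

/-- the sum of the `n c` over the `c` with `K c = r` -/
def total {m : ℕ} (K n : Fin m → ℕ) (r : ℕ) : ℕ := ∑ c ∈ univ.filter (fun c => K c = r), n c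

/-- `N` is squarefree, all its prime factors are in the union of the sets `S c`, and exactly `n c` of them
are in `S c` -/
def Family {m : ℕ} (S : Fin m → Set ℕ) (n : Fin m → ℕ) (N : ℕ) : Prop :=
  Squarefree N ∧ (∀ p : ℕ, p.Prime → p ∣ N → ∃ c, p ∈ S c) ∧
    ∀ c, Nat.card {p : ℕ // p.Prime ∧ p ∣ N ∧ p ∈ S c} = n c

/-- the number of the `N` with `1 ≤ N ≤ X` and `Q N` -/
noncomputable def count (Q : ℕ → Prop) (X : ℕ) : ℕ := Nat.card {N : ℕ // 1 ≤ N ∧ N ≤ X ∧ Q N}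

section proof

open scoped Classical
open Pool.Agent.V11291.FK (Dn Tup mem_Tup)
open Pool.Agent.N62.FQ (Kd J1 al pj Sm Ij nt dn_iff sp_eq Qg Ig card_of_iff)

/-! ### The criteria -/

theorem hp_iff (a b : ℤ) (s w : ℂ) :
    HasProd
      (fun p : {p : ℕ // p.Prime ∧ ¬ ((p : ℤ) ∣ 2 * (4 * a ^ 3 + 27 * b ^ 2))} =>
        ((1 : ℂ)
          - ((((p.1 : ℤ) - (Nat.card {q : ZMod p.1 × ZMod p.1 //
                q.2 ^ 2 = q.1 ^ 3 + (a : ZMod p.1) * q.1 + (b : ZMod p.1)} : ℤ)) : ℤ) : ℂ)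
              * ((p.1 : ℂ) ^ (-s))
          + (p.1 : ℂ) ^ (1 - 2 * s))⁻¹) w ↔
    HasProd
      (fun p : ℕ => if p.Prime ∧ ¬ ((p : ℤ) ∣ 2 * (-4 * a ^ 3 - 27 * b ^ 2)) then
          (1 - ((p : ℂ) - (Nat.card {q : ZMod p × ZMod p //
              q.2 ^ 2 = q.1 ^ 3 + (a : ZMod p) * q.1 + (b : ZMod p)} : ℂ))
              * (p : ℂ) ^ (-s) + (p : ℂ) ^ (1 - 2 * s))⁻¹
        else 1) w := by
  have hd : ∀ p : ℕ, (p : ℤ) ∣ 2 * (-4 * a ^ 3 - 27 * b ^ 2) ↔
      (p : ℤ) ∣ 2 * (4 * a ^ 3 + 27 * b ^ 2) := by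
    intro p
    rw [show 2 * (-4 * a ^ 3 - 27 * b ^ 2) = -(2 * (4 * a ^ 3 + 27 * b ^ 2)) by ring, dvd_neg]
  rw [← (Subtype.val_injective (p := fun p : ℕ => p.Prime ∧
    ¬ ((p : ℤ) ∣ 2 * (4 * a ^ 3 + 27 * b ^ 2)))).hasProd_iff (f := fun p : ℕ =>
      if p.Prime ∧ ¬ ((p : ℤ) ∣ 2 * (-4 * a ^ 3 - 27 * b ^ 2)) then
          (1 - ((p : ℂ) - (Nat.card {q : ZMod p × ZMod p //
              q.2 ^ 2 = q.1 ^ 3 + (a : ZMod p) * q.1 + (b : ZMod p)} : ℂ))
              * (p : ℂ) ^ (-s) + (p : ℂ) ^ (1 - 2 * s))⁻¹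
        else 1)]
  · have e : (fun p : {p : ℕ // p.Prime ∧ ¬ ((p : ℤ) ∣ 2 * (4 * a ^ 3 + 27 * b ^ 2))} =>
        ((1 : ℂ)
          - ((((p.1 : ℤ) - (Nat.card {q : ZMod p.1 × ZMod p.1 //
                q.2 ^ 2 = q.1 ^ 3 + (a : ZMod p.1) * q.1 + (b : ZMod p.1)} : ℤ)) : ℤ) : ℂ)
              * ((p.1 : ℂ) ^ (-s))
          + (p.1 : ℂ) ^ (1 - 2 * s))⁻¹) = (fun p : ℕ =>
      if p.Prime ∧ ¬ ((p : ℤ) ∣ 2 * (-4 * a ^ 3 - 27 * b ^ 2)) then
          (1 - ((p : ℂ) - (Nat.card {q : ZMod p × ZMod p //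
              q.2 ^ 2 = q.1 ^ 3 + (a : ZMod p) * q.1 + (b : ZMod p)} : ℂ))
              * (p : ℂ) ^ (-s) + (p : ℂ) ^ (1 - 2 * s))⁻¹
        else 1) ∘ Subtype.val := by
      funext p
      have hp : p.1.Prime ∧ ¬ ((p.1 : ℤ) ∣ 2 * (-4 * a ^ 3 - 27 * b ^ 2)) := by
        rw [hd]
        exact p.2
      rw [Function.comp_apply, if_pos hp]
      push_cast
      rfl
    rw [e]
  · intro p hp
    rw [if_neg]
    rw [hd]
    intro h
    exact hp ⟨⟨p, h⟩, rfl⟩

/-- two continuations agree -/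
theorem isL_unique {a b : ℤ} {f g : ℂ → ℂ} (hf : IsL a b f) (hg : IsL a b g) : f = g := by
  have h1 : ∀ s : ℂ, (3 : ℝ) / 2 < s.re → f s = g s :=
    fun s hs => (hf.2 s hs).unique (hg.2 s hs)
  refine AnalyticOnNhd.eq_of_eventuallyEq (z₀ := (2 : ℂ))
    (fun x _ => hf.1.analyticAt x) (fun x _ => hg.1.analyticAt x) ?_
  have h2 : {s : ℂ | (3 : ℝ) / 2 < s.re} ∈ 𝓝 (2 : ℂ) := by
    refine (isOpen_lt continuous_const Complex.continuous_re).mem_nhds ?_
    show (3 : ℝ) / 2 < (2 : ℂ).re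
    norm_num
  filter_upwards [h2] with s hs
  exact h1 s hs

theorem bsd49 {D : ℕ} (hsq : Squarefree D) (h4 : D % 4 = 1) (h7 : ¬ 7 ∣ D)
    (hR : RankZeroShaTwo (A (D : ℤ)) (B (D : ℤ))) :
    WeakBSDRankZero (A (D : ℤ)) (B (D : ℤ)) := by
  have hsq' : Squarefree (D : ℤ) := Int.squarefree_natCast.2 hsq
  have h4' : (D : ℤ) % 4 = 1 := by omega
  have h7' : ¬ (7 : ℤ) ∣ (D : ℤ) := fun k => h7 (by exact_mod_cast k)
  obtain ⟨F, k1, k2, k3, k4⟩ := Pool.Agent.N818.TC.rz_bsd hsq' h4' h7' hR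
  have hfin : (points (A (D : ℤ)) (B (D : ℤ))).Finite :=
    Pool.Agent.N818.TC.fin_sol hsq'.ne_zero hR.1
  have hL : IsL (A (D : ℤ)) (B (D : ℤ)) F := ⟨k1, fun s hs => (hp_iff _ _ s _).2 (k2 s hs)⟩
  have h1 : F 1 ≠ 0 := by
    rcases analyticOrderAt_eq_zero.1 k3 with h | h
    · exact absurd (k1.analyticAt 1) h
    · exact h
  refine ⟨?_, fun f hf => ?_, ⟨F, hL, h1⟩, hfin⟩
  · have e : 4 * (A (D : ℤ)) ^ 3 + 27 * (B (D : ℤ)) ^ 2 = 2 ^ 8 * 7 ^ 3 * (D : ℤ) ^ 6 := by
      show 4 * (-35 * (D : ℤ) ^ 2) ^ 3 + 27 * (-98 * (D : ℤ) ^ 3) ^ 2 = _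
      ring
    rw [e]
    exact mul_ne_zero (by norm_num) (pow_ne_zero 6 hsq'.ne_zero)
  · rw [isL_unique hf hL]
    exact ⟨fun h => absurd h h1, fun h => absurd hfin h⟩

theorem good49_iff {D : ℕ} (hsq : Squarefree D) (h4 : D % 4 = 1) (h7 : ¬ 7 ∣ D) :
    Good (D : ℤ) ↔
      Pool.Agent.N973.ND.Gd Pool.Agent.N973.NT.AA Pool.Agent.N973.NT.bb D.primeFactors := by
  rw [← Pool.Agent.N818.TC.rz_gd hsq h4 h7]
  exact ⟨fun h => h.1, fun h => ⟨h, bsd49 hsq h4 h7 h⟩⟩

/-! ### The kinds of primes -/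

theorem kind49_iff (r p : ℕ) :
    Kind r p ↔ Pool.Agent.N973.ND.Pr p ∧ Pool.Agent.N973.ND.ty p = r := by
  unfold Kind Splits Inert Pool.Agent.N973.ND.Pr Pool.Agent.N973.ND.ty Pool.Agent.N973.ND.m7
  constructor
  · rintro ⟨h1, h2⟩
    have h3 : p ≠ 2 := by
      rintro rfl
      omega
    have h4 : p ≠ 7 := by
      rintro rfl
      omega
    refine ⟨⟨h1, h3, h4⟩, ?_⟩
    split_ifs <;> omega
  · rintro ⟨⟨h1, h2, h3⟩, h4⟩
    refine ⟨h1, ?_⟩
    have h5 : p % 2 = 1 := by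
      rcases h1.eq_two_or_odd with h | h
      · exact absurd h h2
      · exact h
    have h6 : p % 7 ≠ 0 := by
      intro h
      exact h3 ((Nat.prime_dvd_prime_iff_eq (by norm_num) h1).1 (Nat.dvd_of_mod_eq_zero h)).symm
    have h7 : p % 4 = 1 ∨ p % 4 = 3 := by omega
    by_cases hs : p % 7 = 1 ∨ p % 7 = 2 ∨ p % 7 = 4
    · rw [if_pos hs] at h4
      rcases h7 with h7 | h7
      · rw [if_neg (by omega)] at h4
        exact Or.inr (Or.inr (Or.inl ⟨h4.symm, hs, h7⟩))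
      · rw [if_pos h7] at h4
        exact Or.inr (Or.inr (Or.inr ⟨h4.symm, hs, h7⟩))
    · have hi : p % 7 = 3 ∨ p % 7 = 5 ∨ p % 7 = 6 := by omega
      rw [if_neg hs] at h4
      rcases h7 with h7 | h7
      · rw [if_neg (by omega)] at h4
        exact Or.inl ⟨h4.symm, hi, h7⟩
      · rw [if_pos h7] at h4
        exact Or.inr (Or.inl ⟨h4.symm, hi, h7⟩)

/-! ### The families -/

section fam

variable {m : ℕ} {S : Fin m → Set ℕ} {K n : Fin m → ℕ}

theorem fam_iff (N : ℕ) : Family S n N ↔ Squarefree N ∧ Qg S n N.primeFactors := by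
  unfold Family Pool.Agent.N62.FQ.Qg
  refine and_congr_right fun hsq => and_congr ?_ (forall_congr' fun c => ?_)
  · constructor
    · intro h p hp
      exact h p (Nat.prime_of_mem_primeFactors hp) (Nat.dvd_of_mem_primeFactors hp)
    · intro h p hp hd
      exact h p (Nat.mem_primeFactors.2 ⟨hp, hd, hsq.ne_zero⟩)
  · rw [card_of_iff (N.primeFactors.filter fun p => p ∈ S c)
      (fun p => p.Prime ∧ p ∣ N ∧ p ∈ S c) fun p => by
        rw [Finset.mem_filter, Nat.mem_primeFactors]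
        constructor
        · rintro ⟨⟨h1, h2, -⟩, h3⟩
          exact ⟨h1, h2, h3⟩
        · rintro ⟨h1, h2, h3⟩
          exact ⟨⟨h1, h2, hsq.ne_zero⟩, h3⟩]

/-- the criterion -/
theorem crit49 (hd : ∀ c c', c ≠ c' → Disjoint (S c) (S c')) (hS : ∀ c, ∀ p ∈ S c, Kind (K c) p)
    (h13 : Even (total K n 1 + total K n 3)) {N : ℕ} (hN : Family S n N) :
    (Squarefree N ∧ N % 4 = 1 ∧ ¬ 7 ∣ N) ∧ (Good N ↔
      Pool.Agent.N973.ND.Gd Pool.Agent.N973.NT.AA Pool.Agent.N973.NT.bb N.primeFactors) := by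
  obtain ⟨hsq, hQ⟩ := (fam_iff N).1 hN
  have hPr : ∀ p ∈ N.primeFactors, Pool.Agent.N973.ND.Pr p := by
    intro p hp
    obtain ⟨c, hc⟩ := hQ.1 p hp
    exact ((kind49_iff _ _).1 (hS c p hc)).1
  have hκ : ∀ c, ∀ p ∈ S c, Pool.Agent.N973.ND.ty p = K c :=
    fun c p hp => ((kind49_iff _ _).1 (hS c p hp)).2
  have e1 : (N.primeFactors.filter fun p => Pool.Agent.N973.ND.ty p = 1).card = total K n 1 :=
    Pool.Agent.N62.FQ.card_qg hd hQ hκ 1
  have e3 : (N.primeFactors.filter fun p => Pool.Agent.N973.ND.ty p = 3).card = total K n 3 :=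
    Pool.Agent.N62.FQ.card_qg hd hQ hκ 3
  have h4 : N % 4 = 1 := by
    rcases Pool.Agent.N226.ND.KEY.prod_mod hPr with ⟨-, h⟩ | ⟨h, -⟩
    · rw [Nat.prod_primeFactors_of_squarefree hsq] at h
      exact h
    · exfalso
      apply h
      unfold Pool.Agent.N973.ND.kd
      rw [e1, e3]
      obtain ⟨k, hk⟩ := h13
      have hk' : (total K n 1 : ℤ) + total K n 3 = k + k := by exact_mod_cast hk
      exact ⟨(total K n 3 : ℤ) - k, by linarith⟩
  have h7 : ¬ 7 ∣ N := by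
    intro h
    exact (hPr 7 (Nat.mem_primeFactors.2 ⟨by norm_num, h, hsq.ne_zero⟩)).2.2 rfl
  exact ⟨⟨hsq, h4, h7⟩, good49_iff hsq h4 h7⟩

theorem count_eq (Q : ℕ → Prop) [DecidablePred Q] (X : ℕ) :
    count Q X = ((Finset.Icc 1 X).filter Q).card := by
  unfold count
  refine card_of_iff _ _ fun D => ?_
  rw [Finset.mem_filter, Finset.mem_Icc, and_assoc]

/-- the law from the law for the tuples -/
theorem law_of_tuples (hp : ∀ c, ∀ p ∈ S c, p.Prime) (hD : ∀ c, Dense (S c))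
    (hd : ∀ c c', c ≠ c' → Disjoint (S c) (S c')) (hn : 1 ≤ ∑ c, n c) (G : Finset ℕ → Prop) (α : ℝ)
    (hG : ∀ N, Family S n N → (Good N ↔ G N.primeFactors))
    (hlaw : ∀ [LinearOrder (Ig n)], Tendsto (fun X : ℕ =>
      (((Tup (fun (i : Ig n) p => p ∈ S i.1) X).filter fun p => G (univ.image p)).card : ℝ) /
        ((Tup (fun (i : Ig n) p => p ∈ S i.1) X).card : ℝ)) atTop (𝓝 α)) :
    Law (count (Family S n)) (count fun N => Family S n N ∧ Good N) (∑ c, n c) α := by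
  have h := Pool.Agent.N62.FQ.num_law hp hd (fun c => (dn_iff (S c)).1 (hD c)) n hn G α @hlaw
  have e1 : ∀ X, count (Family S n) X =
      ((Finset.Icc 1 X).filter fun N => Squarefree N ∧ Qg S n N.primeFactors).card := by
    intro X
    rw [count_eq]
    refine congrArg Finset.card (Finset.ext fun N => ?_)
    rw [Finset.mem_filter, Finset.mem_filter, fam_iff N]
  have e2 : ∀ X, count (fun N => Family S n N ∧ Good N) X =
      ((Finset.Icc 1 X).filter fun N => (Squarefree N ∧ Qg S n N.primeFactors) ∧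
        G N.primeFactors).card := by
    intro X
    rw [count_eq]
    refine congrArg Finset.card (Finset.ext fun N => ?_)
    rw [Finset.mem_filter, Finset.mem_filter]
    refine and_congr_right fun _ => ?_
    constructor
    · rintro ⟨h1, h2⟩
      exact ⟨(fam_iff N).1 h1, (hG N h1).1 h2⟩
    · rintro ⟨h1, h2⟩
      exact ⟨(fam_iff N).2 h1, (hG N ((fam_iff N).2 h1)).2 h2⟩
  unfold Law
  simp only [e1, e2]
  exact h

theorem total_le (r : ℕ) : total K n r ≤ ∑ c, n c :=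
  Finset.sum_le_sum_of_subset (Finset.subset_univ _)

theorem exists_index {r : ℕ} (h : 1 ≤ total K n r) : ∃ i : Ig n, K i.1 = r := by
  by_contra hc
  push Not at hc
  have : total K n r = 0 := by
    unfold total
    refine Finset.sum_eq_zero fun c hc' => ?_
    rw [Finset.mem_filter] at hc'
    rcases Nat.eq_zero_or_pos (n c) with h0 | h0
    · exact h0
    · exact absurd hc'.2 (hc ⟨c, ⟨0, h0⟩⟩)
  omega

theorem limit_eq (a r s : ℕ) : limit a r s = al a r s := rfl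

theorem law49 (hD : ∀ c, Dense (S c)) (hd : ∀ c c', c ≠ c' → Disjoint (S c) (S c'))
    (hS : ∀ c, ∀ p ∈ S c, Kind (K c) p) (h13 : Even (total K n 1 + total K n 3))
    (h0 : 1 ≤ total K n 0) :
    Law (count (Family S n)) (count fun N => Family S n N ∧ Good N) (∑ c, n c)
      (limit (total K n 2) (total K n 3) (total K n 1)) := by
  have hK : ∀ c, ∀ p ∈ S c, Pool.Agent.N973.ND.Pr p ∧ Pool.Agent.N973.ND.ty p = K c :=
    fun c p hp => (kind49_iff _ _).1 (hS c p hp)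
  have hn : 1 ≤ ∑ c, n c := by
    have h1 := total_le (K := K) (n := n) 0
    omega
  obtain ⟨C, hC⟩ := Pool.Agent.N973.NT.t_BIL
  refine law_of_tuples (fun c p hp => (hK c p hp).1.1) hD hd hn
    (Pool.Agent.N973.ND.Gd Pool.Agent.N973.NT.AA Pool.Agent.N973.NT.bb) _
    (fun N hN => (crit49 hd hS h13 hN).2) ?_
  intro _inst
  have hk : ∀ r, nt (fun i : Ig n => K i.1) r = total K n r :=
    fun r => Pool.Agent.N62.FQ.card_kind n K r
  have h1 := Pool.Agent.N62.FQ.tup_law49' (P := fun (i : Ig n) p => p ∈ S i.1)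
    (τ := fun i : Ig n => K i.1) Pool.Agent.N973.NT.recA hC Pool.Agent.N973.NT.bb
    (exists_index h0) (by rw [hk, hk]; exact h13) (fun i p hp => hK i.1 p hp)
    (fun i => (dn_iff (S i.1)).1 (hD i.1))
  rw [hk, hk, hk] at h1
  exact h1

end fam

theorem limit_zero (a : ℕ) :
    limit a 0 0 = ∏ i ∈ range ((a + 1) / 2), (1 - (1 / 2 : ℝ) ^ (2 * i + 1)) := by
  rw [limit_eq]
  unfold Pool.Agent.N62.FQ.al
  rw [Pool.Agent.N62.FQ.pj_symm Pool.Agent.Y839.CQ.t_SYM]
  unfold Pool.Agent.N973.ND.am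
  simp only [Nat.sub_self, Nat.zero_div, Finset.range_zero, Finset.prod_empty, one_mul]
  rfl

theorem limit_rect {r s : ℕ} (h : s ≤ r) : limit 0 r s =
    (∏ i ∈ range ((r - s) / 2), (1 - (1 / 2 : ℝ) ^ (2 * i + 1))) *
      ∏ i ∈ range s, (1 - (2 : ℝ) ^ i / 2 ^ r) := by
  rw [limit_eq]
  unfold Pool.Agent.N62.FQ.al
  rw [Pool.Agent.N62.FQ.pj_rect h]
  rfl

theorem prod_pos_half (m : ℕ) : 0 < ∏ i ∈ range m, (1 - (1 / 2 : ℝ) ^ (2 * i + 1)) := by
  refine Finset.prod_pos fun i _ => ?_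
  have : (1 / 2 : ℝ) ^ (2 * i + 1) ≤ (1 / 2) ^ 1 :=
    pow_le_pow_of_le_one (by norm_num) (by norm_num) (by omega)
  linarith

theorem limit_pos {a r s : ℕ} (h : s ≤ r) : 0 < limit a r s := by
  rw [limit_eq]
  exact mul_pos (prod_pos_half _) (Pool.Agent.N62.FQ.pj_pos h)

theorem limit_none {a r s : ℕ} (h : r < s) : limit a r s = 0 := by
  rw [limit_eq]
  exact Pool.Agent.N62.FQ.al_eq_zero h

theorem dense_class {m t : ℕ} (hm : 1 ≤ m) (ht : Nat.Coprime t m) :
    Dense {p : ℕ | p.Prime ∧ p % m = t % m} :=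
  (dn_iff _).2 (Pool.Agent.N62.FQ.dn_class hm ht)

end proof

/-- **Main theorem.** -/
theorem result :
    (∀ (m : ℕ) (S : Fin m → Set ℕ) (K n : Fin m → ℕ),
      (∀ c, Dense (S c)) → (∀ c c', c ≠ c' → Disjoint (S c) (S c')) →
      (∀ c, ∀ p ∈ S c, Kind (K c) p) →
      Even (total K n 1 + total K n 3) → 1 ≤ total K n 0 →
      (∀ N : ℕ, Family S n N → N % 4 = 1 ∧
        (RankZeroShaTwo (A N) (B N) → WeakBSDRankZero (A N) (B N))) ∧
      Law (count (Family S n)) (count fun N => Family S n N ∧ Good N) (∑ c, n c)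
        (limit (total K n 2) (total K n 3) (total K n 1))) ∧
    ((∀ a, limit a 0 0 = ∏ i ∈ range ((a + 1) / 2), (1 - (1 / 2 : ℝ) ^ (2 * i + 1))) ∧
      (∀ r s, s ≤ r → limit 0 r s = (∏ i ∈ range ((r - s) / 2),
        (1 - (1 / 2 : ℝ) ^ (2 * i + 1))) * ∏ i ∈ range s, (1 - (2 : ℝ) ^ i / 2 ^ r)) ∧
      (∀ a r s, s ≤ r → 0 < limit a r s) ∧ ∀ a r s, r < s → limit a r s = 0) ∧
    ∀ q t : ℕ, 1 ≤ q → Nat.Coprime t q → Dense {p : ℕ | p.Prime ∧ p % q = t % q} := by
  refine ⟨?_, ⟨limit_zero, fun _ _ h => limit_rect h, fun _ _ _ h => limit_pos h,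
      fun _ _ _ h => limit_none h⟩, fun _ _ hm ht => dense_class hm ht⟩
  intro m S K n hD hd hS h13 h0
  refine ⟨fun N hN => ?_, law49 hD hd hS h13 h0⟩
  obtain ⟨⟨h1, h2, h3⟩, -⟩ := crit49 hd hS h13 hN
  exact ⟨h2, fun hR => bsd49 h1 h2 h3 hR⟩

end Pool.Agent.Results.MP_8b7eba_nt.FixedNumberTwistsX49
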